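import Mathlib

/-!
# Candidates `n ^ n + 1` without prime factors below any fixed multiple of `log (n ^ n)`
-/

set_option autoImplicit false

namespace Pool.Agent.Results.MP_a70bdc_nt.NoSmallFactors

open Finset

/-- powers of two are eventually periodic modulo `D`, with a period smaller than `D` -/
lemma period (D : ℕ) (hD : 1 ≤ D) : ∃ s d : ℕ, 1 ≤ d ∧ (d ≤ D ∧ s ≤ D) ∧
    (2 ≤ D → d < D) ∧ ∀ k j : ℕ, s ≤ k →
    2 ^ (k + d * j) ≡ 2 ^ k [MOD D] := by
  obtain ⟨s, m, hm, rfl⟩ := Nat.exists_eq_two_pow_mul_odd (n := D) (by omega)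
  have hm0 : 0 < m := hm.pos
  refine ⟨s, m.totient, Nat.totient_pos.2 hm0, ⟨?_, ?_⟩, ?_, ?_⟩
  · exact (Nat.totient_le m).trans (Nat.le_mul_of_pos_left m (by positivity))
  · exact (Nat.lt_two_pow_self).le.trans (Nat.le_mul_of_pos_right _ hm0)
  · intro h2
    rcases Nat.lt_or_ge 1 m with h | h
    · exact (Nat.totient_lt m h).trans_le (Nat.le_mul_of_pos_left m (by positivity))
    · have h1 : m = 1 := by omega
      subst h1
      rw [Nat.totient_one, mul_one]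
      rw [mul_one] at h2
      omega
  · intro k j hk
    have h1 : (2 ^ m.totient) ^ j ≡ 1 ^ j [MOD m] :=
      (Nat.ModEq.pow_totient ((Nat.coprime_two_left).2 hm)).pow j
    rw [one_pow] at h1
    have h2 : 2 ^ (k - s) * (2 ^ m.totient) ^ j ≡ 2 ^ (k - s) * 1 [MOD m] := h1.mul_left _
    have h3 : 2 ^ s * (2 ^ (k - s) * (2 ^ m.totient) ^ j) ≡ 2 ^ s * (2 ^ (k - s) * 1) [MOD 2 ^ s * m] :=
      h2.mul_left' (2 ^ s)
    have e : 2 ^ s * 2 ^ (k - s) = 2 ^ k := by rw [← pow_add]; congr 1; omega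
    rw [← mul_assoc, e, mul_one, e, ← pow_mul, ← pow_add] at h3
    exact h3

/-- `2 ^ k + k` takes every residue -/
lemma residue : ∀ D : ℕ, 1 ≤ D → ∀ r B : ℕ, ∃ k : ℕ, B ≤ k ∧ D ∣ 2 ^ k + k + r := by
  intro D
  induction D using Nat.strong_induction_on with
  | _ D ih =>
    intro hD r B
    rcases Nat.lt_or_ge D 2 with h1 | h1
    · have : D = 1 := by omega
      subst this
      exact ⟨B, le_rfl, one_dvd _⟩
    · obtain ⟨s, d, hd1, _, hd2, hper⟩ := period D hD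
      have hdD := hd2 h1
      set g := Nat.gcd d D with hg
      have hg1 : 1 ≤ g := Nat.gcd_pos_of_pos_left _ hd1
      have hgd : g ≤ d := Nat.gcd_le_left _ hd1
      obtain ⟨a, ha1, ha2⟩ := ih g (by omega) hg1 r (max B s)
      have haB : B ≤ a := (le_max_left _ _).trans ha1
      have has : s ≤ a := (le_max_right _ _).trans ha1
      -- solve `d j ≡ - (2 ^ a + a + r)` modulo `D`
      obtain ⟨j, hj⟩ : ∃ j : ℕ, D ∣ d * j + (2 ^ a + a + r) := by
        obtain ⟨w, hw⟩ := ha2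
        have hbez := Nat.gcd_eq_gcd_ab d D
        set u : ℤ := Nat.gcdA d D with hu
        set v : ℤ := Nat.gcdB d D with hv
        have hD0 : (0 : ℤ) < D := by exact_mod_cast hD
        refine ⟨((-u * w) % D).toNat, ?_⟩
        have h5 : (((-u * w) % D).toNat : ℤ) = (-u * w) % D :=
          Int.toNat_of_nonneg (Int.emod_nonneg _ hD0.ne')
        rw [← Int.natCast_dvd_natCast]
        have h4 : ((2 ^ a + a + r : ℕ) : ℤ) = g * w := by exact_mod_cast hw
        rw [Nat.cast_add, Nat.cast_mul, h5, h4]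
        have h6 : (-u * w) % (D : ℤ) = -u * w - D * ((-u * w) / D) := by
          have := Int.emod_add_mul_ediv (-u * w) D
          linarith
        rw [h6]
        have h7 : ((Nat.gcd d D : ℕ) : ℤ) = d * u + D * v := hbez
        have h8 : (g : ℤ) = d * u + D * v := h7
        rw [h8]
        exact ⟨v * w - d * ((-u * w) / D), by ring⟩
      refine ⟨a + d * j, by omega, ?_⟩
      have h2 := hper a j has
      have h3 : 2 ^ (a + d * j) + (a + d * j + r) ≡ 2 ^ a + (a + d * j + r) [MOD D] := h2.add_right _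
      have h4 : D ∣ 2 ^ a + (a + d * j + r) := by
        have e : 2 ^ a + (a + d * j + r) = d * j + (2 ^ a + a + r) := by ring
        rw [e]; exact hj
      have h5 := (h3.dvd_iff dvd_rfl).2 h4
      have e : 2 ^ (a + d * j) + (a + d * j) + r = 2 ^ (a + d * j) + (a + d * j + r) := by ring
      rw [e]; exact h5

/-- For every `H` there is an arithmetic progression of `k` for which all prime factors of
`n ^ n + 1`, `n = 2 ^ 2 ^ k`, are larger than `H 2 ^ (k + 2 ^ k) = H log_2 (n ^ n)`. -/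
theorem result (H : ℕ) (hH : 1 ≤ H) : ∃ L k₀ : ℕ, 1 ≤ L ∧ L ≤ (2 * H) ^ (2 * H) ∧ k₀ ≤ 2 * (2 * H) ^ (2 * H) + 2 ∧
    ∀ k : ℕ, k₀ ≤ k → k ≡ k₀ [MOD L] →
    ∀ n : ℕ, n = 2 ^ 2 ^ k → Nat.log 2 (n ^ n) = 2 ^ (k + 2 ^ k) ∧
      ∀ l : ℕ, l.Prime → l ∣ n ^ n + 1 → H * Nat.log 2 (n ^ n) < l := by
  set D : ℕ := ∏ h ∈ Icc 1 H, ((2 * h + 1).minFac - 1) with hD
  have hodd : ∀ h ∈ Icc 1 H, 3 ≤ (2 * h + 1).minFac := by
    intro h hh
    rw [mem_Icc] at hh
    have hp : (2 * h + 1).minFac.Prime := Nat.minFac_prime (by omega)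
    have h2 := hp.two_le
    have h3 : (2 * h + 1).minFac ≠ 2 := by
      intro h4
      have h5 := Nat.minFac_dvd (2 * h + 1)
      rw [h4] at h5
      omega
    omega
  have hD1 : 1 ≤ D := by
    apply Nat.pos_of_ne_zero
    rw [hD, prod_ne_zero_iff]
    intro h hh
    have := hodd h hh
    omega
  obtain ⟨s, d, hd1, ⟨hdD, hsD⟩, _, hper⟩ := period D hD1
  obtain ⟨k₁, hk₁, hdvd₁⟩ := residue D hD1 1 (s + 2)
  set k₀ : ℕ := s + 2 + (k₁ - (s + 2)) % (D * d) with hk₀def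
  have hk₀ : s + 2 ≤ k₀ := by omega
  have hDd : 0 < D * d := Nat.mul_pos hD1 hd1
  have hk₁₀ : k₁ = k₀ + d * (D * ((k₁ - (s + 2)) / (D * d))) := by
    have h1 := Nat.mod_add_div (k₁ - (s + 2)) (D * d)
    have e : d * (D * ((k₁ - (s + 2)) / (D * d))) = D * d * ((k₁ - (s + 2)) / (D * d)) := by ring
    rw [e]
    omega
  have hdvd : D ∣ 2 ^ k₀ + k₀ + 1 := by
    have h2 := hper k₀ (D * ((k₁ - (s + 2)) / (D * d))) (by omega)
    rw [← hk₁₀] at h2
    have h3 : 2 ^ k₁ + (k₁ + 1) ≡ 2 ^ k₀ + (k₁ + 1) [MOD D] := h2.add_right _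
    have h4 : D ∣ 2 ^ k₁ + (k₁ + 1) := by rw [← add_assoc]; exact hdvd₁
    have h5 := (h3.dvd_iff dvd_rfl).1 h4
    have e : 2 ^ k₀ + (k₁ + 1) = D * (d * ((k₁ - (s + 2)) / (D * d))) + (2 ^ k₀ + k₀ + 1) := by
      conv_lhs => rw [hk₁₀]
      ring
    rw [e] at h5
    exact (Nat.dvd_add_right (dvd_mul_right _ _)).1 h5
  have hDle : D ≤ (2 * H) ^ H := by
    rw [hD]
    calc ∏ h ∈ Icc 1 H, ((2 * h + 1).minFac - 1) ≤ ∏ _h ∈ Icc 1 H, (2 * H) := by
          apply prod_le_prod' 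
          intro h hh
          rw [mem_Icc] at hh
          have := Nat.minFac_le (n := 2 * h + 1) (by omega)
          omega
      _ = _ := by rw [prod_const, Nat.card_Icc]; simp
  have hDD : D * D ≤ (2 * H) ^ (2 * H) := by
    calc D * D ≤ (2 * H) ^ H * (2 * H) ^ H := Nat.mul_le_mul hDle hDle
      _ = _ := by rw [← pow_add]; congr 1; ring
  have hL : D * d ≤ (2 * H) ^ (2 * H) := (Nat.mul_le_mul_left D hdD).trans hDD
  have hs2 : s ≤ (2 * H) ^ (2 * H) := hsD.trans ((Nat.le_mul_of_pos_left D hD1).trans hDD)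
  have hmod := Nat.mod_lt (k₁ - (s + 2)) hDd
  refine ⟨D * d, k₀, Nat.mul_pos hD1 hd1, hL, by omega, ?_⟩
  intro k hk hkm n hn
  have hnn : n ^ n = 2 ^ 2 ^ (k + 2 ^ k) := by
    rw [hn, ← pow_mul]
    congr 1
    rw [pow_add]
  have hlog : Nat.log 2 (n ^ n) = 2 ^ (k + 2 ^ k) := by
    rw [hnn]; exact Nat.log_pow (by norm_num) _
  refine ⟨hlog, fun l hl hln => ?_⟩
  rw [hlog]
  by_contra hcon
  push Not at hcon
  -- `k = k₀ + D d j`
  obtain ⟨j, hj⟩ := (Nat.modEq_iff_dvd' hk).1 hkm.symm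
  have hkj : k = k₀ + d * (D * j) := by
    have : k - k₀ = d * (D * j) := by rw [hj]; ring
    omega
  have hDk : D ∣ 2 ^ k + k + 1 := by
    have h2 := hper k₀ (D * j) (by omega)
    rw [← hkj] at h2
    have h3 : 2 ^ k + (k + 1) ≡ 2 ^ k₀ + (k + 1) [MOD D] := h2.add_right _
    have h4 : D ∣ 2 ^ k₀ + (k + 1) := by
      have e : 2 ^ k₀ + (k + 1) = (2 ^ k₀ + k₀ + 1) + D * (d * j) := by rw [hkj]; ring
      rw [e]
      exact dvd_add hdvd (dvd_mul_right _ _)
    have h5 := (h3.dvd_iff dvd_rfl).2 h4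
    have e : 2 ^ k + k + 1 = 2 ^ k + (k + 1) := by ring
    rw [e]; exact h5
  set m : ℕ := k + 2 ^ k with hm
  have h2k : 1 ≤ 2 ^ k := Nat.one_le_two_pow
  have hm2 : 1 < m := by
    rw [hm]; omega
  have hlf : l ∣ Nat.fermatNumber m := by
    unfold Nat.fermatNumber
    rw [← hnn]; exact hln
  obtain ⟨h, hh⟩ := Nat.fermat_primeFactors_one_lt m l hm2 hl hlf
  have hh1 : 1 ≤ h := by
    rcases Nat.eq_zero_or_pos h with h0 | h0
    · rw [h0] at hh
      simp at hh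
      exact absurd hh hl.one_lt.ne'
    · exact h0
  have hhH : h ≤ H := by
    have h3 : h * 2 ^ (m + 2) < H * 2 ^ m := by omega
    rw [pow_add] at h3
    have h4 : (h * 4) * 2 ^ m < H * 2 ^ m := by
      calc (h * 4) * 2 ^ m = h * (2 ^ m * 2 ^ 2) := by ring
        _ < _ := h3
    have h5 := Nat.lt_of_mul_lt_mul_right h4
    omega
  set p := (2 * h + 1).minFac with hp
  have hpp : p.Prime := Nat.minFac_prime (by omega)
  have hp3 : 3 ≤ p := hodd h (mem_Icc.2 ⟨hh1, hhH⟩)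
  have hpD : p - 1 ∣ D := by
    rw [hD]
    exact dvd_prod_of_mem (fun h => (2 * h + 1).minFac - 1) (mem_Icc.2 ⟨hh1, hhH⟩)
  -- the exponent `m + 2` is `1` modulo `p - 1`
  obtain ⟨w, hw⟩ : p - 1 ∣ m + 1 := by
    have e : m + 1 = 2 ^ k + k + 1 := by rw [hm]; ring
    rw [e]; exact hpD.trans hDk
  have hcop : Nat.Coprime 2 p := by
    rw [Nat.coprime_primes Nat.prime_two hpp]
    omega
  have hpow : 2 ^ (m + 1) ≡ 1 [MOD p] := by
    rw [hw, pow_mul]
    have h3 := (Nat.ModEq.pow_totient hcop).pow w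
    rw [Nat.totient_prime hpp, one_pow] at h3
    exact h3
  have hpl : p ∣ l := by
    have h3 : h * 2 ^ (m + 2) + 1 ≡ 2 * h + 1 [MOD p] := by
      have e : h * 2 ^ (m + 2) = (2 * h) * 2 ^ (m + 1) := by rw [show m + 2 = (m + 1) + 1 by ring, pow_succ]; ring
      rw [e]
      have h4 : (2 * h) * 2 ^ (m + 1) ≡ (2 * h) * 1 [MOD p] := hpow.mul_left _
      rw [mul_one] at h4
      exact h4.add_right 1
    rw [hh]
    exact (h3.dvd_iff dvd_rfl).2 (Nat.minFac_dvd _)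
  have hple : p = l := (Nat.prime_dvd_prime_iff_eq hpp hl).1 hpl
  have h6 : p ≤ 2 * h + 1 := Nat.minFac_le (by omega)
  have h7 : 2 ^ 2 ≤ 2 ^ (m + 2) := Nat.pow_le_pow_right (by norm_num) (by omega)
  have h8 : h * 4 ≤ h * 2 ^ (m + 2) := Nat.mul_le_mul_left _ h7
  omega

end Pool.Agent.Results.MP_a70bdc_nt.NoSmallFactors
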